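import Pool.Agent.Helper54.SR.Defs

/-!
# SR-D2, SR-D3: principal parts and lifts of sections

`principal_parts`: the matrix `(y_i^j)` is a Vandermonde matrix over `k⟦u⟧` with invertible determinant; solve
over `k((u))` and take the principal parts of the solution.
`lift_section`: recursion on the power of `t`.
-/

set_option autoImplicit false
open scoped Pointwise
open Polynomial Pool.Agent.Helper54.PW

namespace Pool.Agent.Helper54.SR

section series
variable {k : Type} [Field k]

private theorem h14_neg (f : LaurentSeries k) : ∃ s : LaurentSeries k,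
    (∀ e : ℤ, 0 ≤ e → s.coeff e = 0) ∧
      ∃ r : PowerSeries k, f - s = algebraMap (PowerSeries k) (LaurentSeries k) r := by
  obtain ⟨r, hr⟩ : ∃ r : PowerSeries k, r = PowerSeries.mk fun n => f.coeff (n : ℤ) := ⟨_, rfl⟩
  refine ⟨f - algebraMap (PowerSeries k) (LaurentSeries k) r, ?_, r, by ring⟩
  intro e he
  obtain ⟨n, rfl⟩ := Int.eq_ofNat_of_zero_le he
  have h1 : (algebraMap (PowerSeries k) (LaurentSeries k) r).coeff (n : ℤ) =
      PowerSeries.coeff n r := by
    exact HahnSeries.ofPowerSeries_apply_coeff r n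
  rw [HahnSeries.coeff_sub, h1, hr, PowerSeries.coeff_mk, sub_self]

private theorem h14_det {n : ℕ} (y : Fin n → PowerSeries k)
    (hy : Function.Injective fun i => PowerSeries.constantCoeff (y i)) :
    IsUnit (Matrix.vandermonde y).det := by
  rw [PowerSeries.isUnit_iff_constantCoeff, Matrix.det_vandermonde, map_prod, isUnit_iff_ne_zero]
  refine Finset.prod_ne_zero_iff.2 fun i _ => ?_
  rw [map_prod]
  refine Finset.prod_ne_zero_iff.2 fun j hj => ?_
  rw [map_sub, sub_ne_zero]
  intro h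
  rw [Finset.mem_Ioi] at hj
  exact hj.ne (hy h.symm)

theorem principal_parts {n : ℕ} (y : Fin n → PowerSeries k)
    (hy : Function.Injective fun i => PowerSeries.constantCoeff (y i))
    (v : Fin n → LaurentSeries k) :
    ∃ s : Fin n → LaurentSeries k, (∀ j, ∀ e : ℤ, 0 ≤ e → (s j).coeff e = 0) ∧
      ∀ i, ∃ r : PowerSeries k,
        v i - ∑ j : Fin n, s j * algebraMap (PowerSeries k) (LaurentSeries k) (y i) ^ (j : ℕ) =
          algebraMap (PowerSeries k) (LaurentSeries k) r := by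
  obtain ⟨φ, hφ⟩ : ∃ φ : PowerSeries k →+* LaurentSeries k,
    φ = algebraMap (PowerSeries k) (LaurentSeries k) := ⟨_, rfl⟩
  rw [← hφ]
  obtain ⟨W, hW⟩ : ∃ W, W = (Matrix.vandermonde y)⁻¹ := ⟨_, rfl⟩
  have hVW : Matrix.vandermonde y * W = 1 := by
    rw [hW]
    exact Matrix.mul_nonsing_inv _ (h14_det y hy)
  obtain ⟨s', hs'⟩ : ∃ s' : Fin n → LaurentSeries k, s' = Matrix.mulVec (W.map φ) v := ⟨_, rfl⟩
  have hv : Matrix.mulVec ((Matrix.vandermonde y).map φ) s' = v := by
    rw [hs', Matrix.mulVec_mulVec, ← RingHom.mapMatrix_apply, ← RingHom.mapMatrix_apply,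
      ← map_mul, hVW, map_one, Matrix.one_mulVec]
  choose s hs1 r hr using fun j => h14_neg (s' j)
  refine ⟨s, hs1, fun i => ⟨∑ j : Fin n, r j * y i ^ (j : ℕ), ?_⟩⟩
  have h1 : v i = ∑ j : Fin n, φ (y i) ^ (j : ℕ) * s' j := by
    rw [← hv]
    unfold Matrix.mulVec dotProduct
    refine Finset.sum_congr rfl fun j _ => ?_
    show φ (Matrix.vandermonde y i j) * s' j = _
    rw [Matrix.vandermonde_apply, map_pow]
  rw [h1, map_sum, ← Finset.sum_sub_distrib]
  refine Finset.sum_congr rfl fun j _ => ?_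
  rw [map_mul, map_pow]
  have h2 : φ (r j) = s' j - s j := by rw [hφ]; exact (hr j).symm
  rw [h2]
  ring

/-- the coefficients of the lift -/
private noncomputable def h14sig {n : ℕ} (P : (Fin n → LaurentSeries k) → Fin n → LaurentSeries k)
    (a0 z : Fin n → LaurentSeries k) (U : EE k) (i₀ : Fin n) : ℕ → Fin n → LaurentSeries k
  | 0 => a0
  | r + 1 => P fun i => if i = i₀ then
      - ∑ q : Fin (r + 1), (∑ j : Fin n, h14sig P a0 z U i₀ q.1 j * z j) *
        PowerSeries.coeff (r + 1 - q.1) U else 0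
termination_by r => r
decreasing_by exact q.2

private theorem h14_range (x : EE k) (h : ∀ r, ∃ p : PowerSeries k,
    PowerSeries.coeff r x = algebraMap (PowerSeries k) (LaurentSeries k) p) :
    x ∈ (iI k).range := by
  choose p hp using h
  refine ⟨PowerSeries.mk p, ?_⟩
  ext1 r
  unfold iI
  rw [PowerSeries.coeff_map, PowerSeries.coeff_mk, hp]

theorem lift_section {n : ℕ} (y : Fin n → PowerSeries k)
    (hy : Function.Injective fun i => PowerSeries.constantCoeff (y i)) (i₀ : Fin n) (U : EE k)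
    (hU : PowerSeries.constantCoeff U = 1) (a : Fin n → Polynomial k) :
    ∃ s : Fin n → EE k,
      (∀ j, PowerSeries.constantCoeff (s j) =
        algebraMap (PowerSeries k) (LaurentSeries k) (a j : PowerSeries k)) ∧
      (∀ j r, r ≠ 0 → ∀ e : ℤ, 0 ≤ e → (PowerSeries.coeff r (s j)).coeff e = 0) ∧
      (∀ i, i ≠ i₀ → ∑ j : Fin n, s j * cE (y i) ^ (j : ℕ) ∈ (iI k).range) ∧
      U * ∑ j : Fin n, s j * cE (y i₀) ^ (j : ℕ) ∈ (iI k).range := by
  choose P hP1 hP2 using fun v => principal_parts y hy v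
  obtain ⟨z, hz⟩ : ∃ z : Fin n → LaurentSeries k,
    z = fun j : Fin n => algebraMap (PowerSeries k) (LaurentSeries k) (y i₀) ^ (j : ℕ) := ⟨_, rfl⟩
  obtain ⟨a0, ha0⟩ : ∃ a0 : Fin n → LaurentSeries k,
    a0 = fun j => algebraMap (PowerSeries k) (LaurentSeries k) (a j : PowerSeries k) := ⟨_, rfl⟩
  obtain ⟨g, hg⟩ : ∃ g, g = h14sig P a0 z U i₀ := ⟨_, rfl⟩
  have g0 : g 0 = a0 := by
    rw [hg, h14sig]
  have gs : ∀ r, g (r + 1) = P fun i => if i = i₀ then
      - ∑ q : Fin (r + 1), (∑ j : Fin n, g q.1 j * z j) * PowerSeries.coeff (r + 1 - q.1) U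
        else 0 := by
    intro r
    rw [hg, h14sig]
  have hc : ∀ (i : Fin n) (r : ℕ), PowerSeries.coeff r
      (∑ j : Fin n, (PowerSeries.mk fun r => g r j) * cE (y i) ^ (j : ℕ)) =
        ∑ j : Fin n, g r j * algebraMap (PowerSeries k) (LaurentSeries k) (y i) ^ (j : ℕ) := by
    intro i r
    rw [map_sum]
    refine Finset.sum_congr rfl fun j _ => ?_
    have h1 : cE (y i) = PowerSeries.C (algebraMap (PowerSeries k) (LaurentSeries k) (y i)) := by
      unfold cE iI
      rw [PowerSeries.map_C]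
    rw [h1, ← map_pow, PowerSeries.coeff_mul_C, PowerSeries.coeff_mk]
  have h00 : ∀ i : Fin n, ∑ j : Fin n, g 0 j *
      algebraMap (PowerSeries k) (LaurentSeries k) (y i) ^ (j : ℕ) =
      algebraMap (PowerSeries k) (LaurentSeries k) (∑ j, (a j : PowerSeries k) * y i ^ (j : ℕ)) := by
    intro i
    rw [g0, ha0, map_sum]
    refine Finset.sum_congr rfl fun j _ => ?_
    rw [map_mul, map_pow]
  refine ⟨fun j => PowerSeries.mk fun r => g r j, ?_, ?_, ?_, ?_⟩
  · intro j
    rw [← PowerSeries.coeff_zero_eq_constantCoeff_apply, PowerSeries.coeff_mk, g0, ha0]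
  · intro j r hr e he
    obtain ⟨r, rfl⟩ := Nat.exists_eq_succ_of_ne_zero hr
    rw [PowerSeries.coeff_mk]
    show (g (r + 1) j).coeff e = 0
    rw [gs]
    exact hP1 _ j e he
  · intro i hi
    apply h14_range
    intro r
    rw [hc]
    rcases Nat.eq_zero_or_pos r with rfl | hr
    · exact ⟨_, h00 i⟩
    · obtain ⟨r, rfl⟩ := Nat.exists_eq_succ_of_ne_zero hr.ne'
      obtain ⟨p, hp⟩ := hP2 (fun i => if i = i₀ then
        - ∑ q : Fin (r + 1), (∑ j : Fin n, g q.1 j * z j) * PowerSeries.coeff (r + 1 - q.1) U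
        else 0) i
      rw [← gs, if_neg hi, zero_sub] at hp
      refine ⟨-p, ?_⟩
      rw [map_neg, ← hp, neg_neg]
  · apply h14_range
    intro r
    rw [mul_comm, PowerSeries.coeff_mul,
      Finset.Nat.sum_antidiagonal_eq_sum_range_succ (fun q p => PowerSeries.coeff q
        (∑ j : Fin n, (PowerSeries.mk fun r => g r j) * cE (y i₀) ^ (j : ℕ)) *
          PowerSeries.coeff p U)]
    simp only [hc]
    rw [Finset.sum_range_succ, Nat.sub_self, PowerSeries.coeff_zero_eq_constantCoeff_apply, hU,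
      mul_one]
    rcases Nat.eq_zero_or_pos r with rfl | hr
    · rw [Finset.range_zero, Finset.sum_empty, zero_add]
      exact ⟨_, h00 i₀⟩
    · obtain ⟨r, rfl⟩ := Nat.exists_eq_succ_of_ne_zero hr.ne'
      obtain ⟨p, hp⟩ := hP2 (fun i => if i = i₀ then
        - ∑ q : Fin (r + 1), (∑ j : Fin n, g q.1 j * z j) * PowerSeries.coeff (r + 1 - q.1) U
        else 0) i₀
      rw [← gs, if_pos rfl] at hp
      refine ⟨-p, ?_⟩
      rw [map_neg, ← hp, Finset.sum_range]
      rw [hz]
      show _ = -(-(∑ q : Fin (r + 1), _) - _)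
      ring

end series

end Pool.Agent.Helper54.SR
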