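import Pool.Agent.Helper54.SR.Defs
import Pool.Agent.Helper18.PW.Places1
import Pool.Agent.Helper79.PW.Transitive

/-!
# SR-T0, SR-T1, SR-T3: restriction, places below and above, decomposition groups
-/

set_option autoImplicit false
set_option linter.unusedVariables false
set_option linter.unusedSectionVars false
open scoped Pointwise
open Polynomial Pool.Agent.Helper54.PW

namespace Pool.Agent.Helper54.SR

/-! ### Auxiliary facts -/

private theorem h14_nonunits {K K' : Type} [Field K] [Field K'] (f : K →+* K')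
    (B : ValuationSubring K') (x : K) : x ∈ (B.comap f).nonunits ↔ f x ∈ B.nonunits := by
  rw [ValuationSubring.mem_nonunits_iff_or, ValuationSubring.mem_nonunits_iff_or,
    ValuationSubring.mem_comap, map_inv₀, map_eq_zero]

private theorem h14_mul_mem {K : Type} [Field K] (B : ValuationSubring K) {x y : K}
    (hx : x ∈ B.nonunits) (hy : y ∈ B) : x * y ∈ B.nonunits := by
  rw [ValuationSubring.mem_nonunits_iff] at hx ⊢
  rw [map_mul]
  exact mul_lt_one_of_lt_of_le hx ((B.valuation_le_one_iff y).2 hy)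

private theorem h14_mem {K : Type} [Field K] (B : ValuationSubring K) {x : K}
    (hx : x ∈ B.nonunits) : x ∈ B := by
  rw [ValuationSubring.mem_nonunits_iff] at hx
  exact (B.valuation_le_one_iff x).1 hx.le

private theorem h14_const {k : Type} [Field k] (B : ValuationSubring (RatFunc k))
    (hB : ∀ a : k, algebraMap k (RatFunc k) a ∈ B) {a : k} (ha : a ≠ 0) :
    algebraMap k (RatFunc k) a ∉ B.nonunits := by
  rw [ValuationSubring.mem_nonunits_iff_or]
  rintro (h | h)
  · exact ha ((map_eq_zero _).1 h)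
  · apply h
    rw [← map_inv₀]
    exact hB _

private theorem h14_poly {k : Type} [Field k] (B : ValuationSubring (RatFunc k))
    (hB : ∀ a : k, algebraMap k (RatFunc k) a ∈ B) (c : k)
    (hc : RatFunc.X - algebraMap k (RatFunc k) c ∈ B.nonunits) (P : k[X]) :
    algebraMap k[X] (RatFunc k) P ∈ B := by
  have hX : (RatFunc.X : RatFunc k) ∈ B := by
    have h := B.add_mem _ _ (h14_mem B hc) (hB c)
    rwa [sub_add_cancel] at h
  induction P using Polynomial.induction_on' with
  | add f g hf hg => rw [map_add]; exact B.add_mem _ _ hf hg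
  | monomial n a =>
    rw [← Polynomial.C_mul_X_pow_eq_monomial, map_mul, map_pow, RatFunc.algebraMap_X,
      RatFunc.algebraMap_C]
    exact B.mul_mem _ _ (hB a) (B.toSubring.pow_mem hX n)

private theorem h14_polyC {k : Type} [Field k] (B : ValuationSubring (RatFunc k))
    (hB : ∀ a : k, algebraMap k (RatFunc k) a ∈ B) (c : k)
    (hc : RatFunc.X - algebraMap k (RatFunc k) c ∈ B.nonunits) (P : k[X]) :
    algebraMap k[X] (RatFunc k) P ∈ B.nonunits ↔ P.eval c = 0 := by
  obtain ⟨Q, hQ⟩ := Polynomial.X_sub_C_dvd_sub_C_eval (a := c) (p := P)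
  have hXc : algebraMap k[X] (RatFunc k) (X - C c) = RatFunc.X - algebraMap k (RatFunc k) c := by
    rw [map_sub, RatFunc.algebraMap_X, RatFunc.algebraMap_C]
    rfl
  have h1 : algebraMap k[X] (RatFunc k) P - algebraMap k (RatFunc k) (P.eval c) ∈ B.nonunits := by
    have h2 : algebraMap k[X] (RatFunc k) P - algebraMap k (RatFunc k) (P.eval c) =
        (RatFunc.X - algebraMap k (RatFunc k) c) * algebraMap k[X] (RatFunc k) Q := by
      rw [← hXc, ← map_mul, ← hQ, map_sub, RatFunc.algebraMap_C]
      rfl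
    rw [h2]
    exact h14_mul_mem B hc (h14_poly B hB c hc Q)
  constructor
  · intro h
    by_contra hne
    apply h14_const B hB hne
    rw [ValuationSubring.mem_nonunits_iff] at h h1 ⊢
    have h3 : algebraMap k (RatFunc k) (P.eval c) = algebraMap k[X] (RatFunc k) P -
        (algebraMap k[X] (RatFunc k) P - algebraMap k (RatFunc k) (P.eval c)) := by ring
    rw [h3]
    exact (Valuation.map_sub _ _ _).trans_lt (max_lt h h1)
  · intro h
    rw [h, map_zero, sub_zero] at h1
    exact h1

private theorem h14_rat {k : Type} [Field k] (B : ValuationSubring (RatFunc k))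
    (hB : ∀ a : k, algebraMap k (RatFunc k) a ∈ B) (c : k)
    (hc : RatFunc.X - algebraMap k (RatFunc k) c ∈ B.nonunits) (f : RatFunc k) :
    f ∈ B ↔ f.denom.eval c ≠ 0 := by
  have hf := RatFunc.num_div_denom f
  have hd0 : algebraMap k[X] (RatFunc k) f.denom ≠ 0 := by
    rw [Ne, map_eq_zero_iff _ (RatFunc.algebraMap_injective k)]
    exact RatFunc.denom_ne_zero f
  have hf2 : f * algebraMap k[X] (RatFunc k) f.denom = algebraMap k[X] (RatFunc k) f.num := by
    conv_lhs => rw [← hf]
    rw [RatFunc.num_div_denom]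
    rw [← hf, RatFunc.num_div_denom]
    exact (div_eq_iff hd0).1 hf |>.symm
  constructor
  · intro h hd
    have h1 : algebraMap k[X] (RatFunc k) f.num ∈ B.nonunits := by
      rw [← hf2, mul_comm]
      exact h14_mul_mem B ((h14_polyC B hB c hc _).2 hd) h
    have h2 := (h14_polyC B hB c hc _).1 h1
    obtain ⟨a, b, hab⟩ := RatFunc.isCoprime_num_denom f
    have h3 := congrArg (Polynomial.eval c) hab
    rw [Polynomial.eval_add, Polynomial.eval_mul, Polynomial.eval_mul, h2, hd, mul_zero, mul_zero,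
      add_zero, Polynomial.eval_one] at h3
    exact zero_ne_one h3
  · intro h
    have h1 : algebraMap k[X] (RatFunc k) f.denom ∉ B.nonunits := fun h' =>
      h ((h14_polyC B hB c hc _).1 h')
    rw [ValuationSubring.mem_nonunits_iff_or] at h1
    push Not at h1
    have h2 := B.mul_mem _ _ (h14_poly B hB c hc f.num) h1.2
    rwa [← div_eq_mul_inv, hf] at h2

section twist
variable {p : ℕ} [Fact p.Prime] {k : Type} [Field k] [IsAlgClosed k] [CharP k p]
  {F : Type} [Field F] [Algebra (RatFunc k) F] [FiniteDimensional (RatFunc k) F]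
  [IsGalois (RatFunc k) F] {L : Type} [Field L] [Algebra (RatFunc k) L]
  [FiniteDimensional (RatFunc k) L] [IsGalois (RatFunc k) L]
  {L' : Type} [Field L'] [Algebra (RatFunc k) L'] [FiniteDimensional (RatFunc k) L']
  [IsGalois (RatFunc k) L'] {G : Type} [Group G] [Finite G]

/-- SR-T0 -/
theorem exists_res (j : L →ₐ[RatFunc k] L') :
    ∃ res : (L' ≃ₐ[RatFunc k] L') →* (L ≃ₐ[RatFunc k] L), Function.Surjective res ∧
      ∀ σ x, σ (j x) = j (res σ x) := by
  let _ : Algebra L L' := (j : L →+* L').toAlgebra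
  have : IsScalarTower (RatFunc k) L L' := IsScalarTower.of_algebraMap_eq fun x =>
    (j.commutes x).symm
  refine ⟨AlgEquiv.restrictNormalHom L, AlgEquiv.restrictNormalHom_surjective L', fun σ x => ?_⟩
  exact (AlgEquiv.restrictNormal_commutes σ L x).symm

private theorem h14_co (j : L →ₐ[RatFunc k] L') (c : k) : j (co k L c) = co k L' c := j.commutes _

private theorem h14_tX (j : L →ₐ[RatFunc k] L') : j (tX k L) = tX k L' := j.commutes _

/-- SR-T1a -/
theorem comap_isPl (j : L →ₐ[RatFunc k] L') (B : ValuationSubring L') (hB : IsPl k B) :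
    IsPl k (B.comap (j : L →+* L')) ∧
      (∀ c, Over k (B.comap (j : L →+* L')) c ↔ Over k B c) ∧
      (tX k L ∈ B.comap (j : L →+* L') ↔ tX k L' ∈ B) ∧
      (∀ x : L, Un (B.comap (j : L →+* L')) x ↔ Un B (j x)) ∧
      ∀ (σ : L' ≃ₐ[RatFunc k] L') (τ : L ≃ₐ[RatFunc k] L), (∀ x, σ (j x) = j (τ x)) →
        σ • B = B → τ • B.comap (j : L →+* L') = B.comap (j : L →+* L') := by
  have hmem : ∀ x : L, x ∈ B.comap (j : L →+* L') ↔ j x ∈ B := fun x => Iff.rfl
  refine ⟨⟨fun h => hB.1 ?_, fun c => ?_⟩, fun c => ?_, ?_, fun x => ?_, fun σ τ hστ hσ => ?_⟩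
  · rw [eq_top_iff]
    intro x _
    let _ : Algebra L L' := (j : L →+* L').toAlgebra
    have : IsScalarTower (RatFunc k) L L' := IsScalarTower.of_algebraMap_eq fun x =>
      (j.commutes x).symm
    have hfin : FiniteDimensional L L' := FiniteDimensional.right (RatFunc k) L L'
    refine Places1.mem_of_integral (R := L) B (fun r => ?_) (Algebra.IsIntegral.isIntegral x)
    have : r ∈ B.comap (j : L →+* L') := by rw [h]; trivial
    exact this
  · rw [hmem, h14_co]
    exact hB.2 c
  · unfold Over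
    rw [h14_nonunits, map_sub]
    show j (tX k L) - j (co k L c) ∈ B.nonunits ↔ _
    rw [h14_co, h14_tX]
  · rw [hmem, h14_tX]
  · unfold Un
    rw [hmem, hmem, map_inv₀, Ne, Ne, map_eq_zero]
  · ext y
    rw [ValuationSubring.mem_pointwise_smul_iff_inv_smul_mem, hmem, hmem]
    have h1 : σ (j (τ⁻¹ • y)) = j y := by
      rw [hστ]
      congr 1
      exact smul_inv_smul τ y
    rw [← h1]
    conv_rhs => rw [← hσ]
    exact (ValuationSubring.smul_mem_pointwise_smul_iff (g := σ)).symm

/-- SR-T1b -/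
theorem exists_above (j : L →ₐ[RatFunc k] L') (A : ValuationSubring L) (hA : IsPl k A) :
    ∃ B : ValuationSubring L', IsPl k B ∧ B.comap (j : L →+* L') = A := by
  let _ : Algebra L L' := (j : L →+* L').toAlgebra
  let _ : Algebra k L := ((algebraMap (RatFunc k) L).comp (algebraMap k (RatFunc k))).toAlgebra
  let _ : Algebra k L' := ((algebraMap (RatFunc k) L').comp (algebraMap k (RatFunc k))).toAlgebra
  have : IsScalarTower k L L' := IsScalarTower.of_algebraMap_eq fun c => (h14_co j c).symm
  exact exists_place_extension (k := k) (Ω := L') A hA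

/-- SR-T1c: decomposition groups surject -/
theorem exists_dec_lift (j : L →ₐ[RatFunc k] L') (B : ValuationSubring L') (hB : IsPl k B)
    (τ : L ≃ₐ[RatFunc k] L) (hτ : τ • B.comap (j : L →+* L') = B.comap (j : L →+* L')) :
    ∃ σ : L' ≃ₐ[RatFunc k] L', σ • B = B ∧ ∀ x, σ (j x) = j (τ x) := by
  obtain ⟨res, hres, hj⟩ := exists_res (k := k) j
  obtain ⟨σ₀, hσ₀⟩ := hres τ
  have hσj : ∀ x, σ₀ (j x) = j (τ x) := by
    intro x
    rw [hj, hσ₀]
  let _ : Algebra L L' := (j : L →+* L').toAlgebra
  let _ : Algebra k L := ((algebraMap (RatFunc k) L).comp (algebraMap k (RatFunc k))).toAlgebra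
  let _ : Algebra k L' := ((algebraMap (RatFunc k) L').comp (algebraMap k (RatFunc k))).toAlgebra
  have h1 : IsScalarTower k L L' := IsScalarTower.of_algebraMap_eq fun c => (h14_co j c).symm
  have h2 : IsScalarTower k (RatFunc k) L' := IsScalarTower.of_algebraMap_eq fun _ => rfl
  have h3 : IsScalarTower (RatFunc k) L L' := IsScalarTower.of_algebraMap_eq fun x =>
    (j.commutes x).symm
  have hfin : FiniteDimensional L L' := FiniteDimensional.right (RatFunc k) L L'
  have hgal : IsGalois L L' := IsGalois.tower_top_of_isGalois (RatFunc k) L L'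
  have hFF : FF k L' := ff_of_algebraic k L'
  have hσB : IsPl k (σ₀ • B) := by
    refine ⟨fun h => hB.1 ?_, fun c => ?_⟩
    · rw [eq_top_iff]
      intro x _
      rw [← ValuationSubring.smul_mem_pointwise_smul_iff (g := σ₀), h]
      trivial
    · rw [ValuationSubring.mem_pointwise_smul_iff_inv_smul_mem]
      have : σ₀⁻¹ • (co k L' c) = co k L' c := (σ₀⁻¹).commutes _
      rw [this]
      exact hB.2 c
  have hcomap : (σ₀ • B).comap (algebraMap L L') = B.comap (algebraMap L L') := by
    have h4 : ∀ x : L, σ₀⁻¹ • (j x) = j (τ⁻¹ • x) := by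
      intro x
      rw [inv_smul_eq_iff]
      show j x = σ₀ (j (τ⁻¹ • x))
      rw [hσj]
      congr 1
      exact (smul_inv_smul τ x).symm
    ext x
    show j x ∈ σ₀ • B ↔ j x ∈ B
    rw [ValuationSubring.mem_pointwise_smul_iff_inv_smul_mem, h4]
    have h5 : τ⁻¹ • x ∈ B.comap (j : L →+* L') ↔ x ∈ B.comap (j : L →+* L') := by
      rw [← ValuationSubring.mem_pointwise_smul_iff_inv_smul_mem, hτ]
    exact h5
  obtain ⟨ρ, hρ⟩ := places_transitive (k := k) (M := L) hFF (σ₀ • B) B hσB hB hcomap
  refine ⟨(AlgEquiv.restrictScalars (RatFunc k) ρ) * σ₀, ?_, fun x => ?_⟩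
  · rw [mul_smul]
    exact hρ
  · show ρ (σ₀ (j x)) = j (τ x)
    rw [hσj]
    exact ρ.commutes (τ x)

/-- SR-T3 -/
theorem unrAt_of_one (ρ : (L ≃ₐ[RatFunc k] L) →* G) (c : k) (A : ValuationSubring L)
    (hA : IsPl k A) (hc : Over k A c) (h : ∀ σ : L ≃ₐ[RatFunc k] L, σ • A = A → ρ σ = 1) :
    UnrAt ρ c := by
  intro A' hA' hc' σ hσ
  let _ : Algebra k L := ((algebraMap (RatFunc k) L).comp (algebraMap k (RatFunc k))).toAlgebra
  have h1 : IsScalarTower k (RatFunc k) L := IsScalarTower.of_algebraMap_eq fun _ => rfl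
  have hFF : FF k L := ff_of_algebraic k L
  have hcomap : A.comap (algebraMap (RatFunc k) L) = A'.comap (algebraMap (RatFunc k) L) := by
    have key : ∀ A : ValuationSubring L, IsPl k A → Over k A c → ∀ f : RatFunc k,
        f ∈ A.comap (algebraMap (RatFunc k) L) ↔ f.denom.eval c ≠ 0 := by
      intro A hA hc f
      refine h14_rat _ (fun a => hA.2 a) c ?_ f
      rw [h14_nonunits, map_sub]
      exact hc
    ext f
    rw [key A hA hc, key A' hA' hc']
  obtain ⟨τ, hτ⟩ := places_transitive (k := k) (M := RatFunc k) hFF A A' hA hA' hcomap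
  have h2 : (τ⁻¹ * σ * τ) • A = A := by
    rw [mul_smul, mul_smul, hτ, hσ, ← hτ, inv_smul_smul]
  have h3 := h _ h2
  rw [map_mul, map_mul, map_inv] at h3
  have h4 : ρ σ = ρ τ * ((ρ τ)⁻¹ * ρ σ * ρ τ) * (ρ τ)⁻¹ := by group
  rw [h4, h3]
  group

end twist

end Pool.Agent.Helper54.SR
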